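import Pool.Agent.H37.CTN.Stmts

set_option autoImplicit false

namespace Pool.CND

private theorem nfn_charF (p : ℕ) (F : Type) [Field F] (f q : ℕ)
    (hp : p.Prime) (hf : 1 ≤ f) (hq : q = p ^ f) (hF : Nat.card F = q) :
    CharP F p := by
  have := Fact.mk hp
  have : Finite F := Nat.finite_of_card_ne_zero (by rw [hF, hq]; exact pow_ne_zero _ hp.ne_zero)
  have : Fintype F := Fintype.ofFinite F
  obtain ⟨r, hr⟩ := CharP.exists F
  obtain ⟨n, hr1, hr2⟩ := FiniteField.card F r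
  rw [Nat.card_eq_fintype_card, hr2, hq] at hF
  have : p = r := by
    have h1 : p ∣ r ^ (n : ℕ) := hF ▸ dvd_pow_self p (by omega)
    exact (Nat.prime_dvd_prime_iff_eq hp hr1).1 (hp.dvd_of_dvd_pow h1)
  rw [this]; exact hr

private theorem nfn_center (p n : ℕ) (F : Type) [Field F] [Finite F] [CharP F p] (hp : p.Prime) :
    ¬ p ∣ Nat.card (Subgroup.center (Matrix.SpecialLinearGroup (Fin n) F)) := by
  have := Fact.mk hp
  intro h
  obtain ⟨g, hg⟩ := exists_prime_orderOf_dvd_card' p h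
  set u := Matrix.SpecialLinearGroup.center_equiv_rootsOfUnity g with hu
  have h1 : u ^ p = 1 := by
    rw [hu, ← map_pow, ← hg, pow_orderOf_eq_one, map_one]
  have h2 : ((u : Fˣ) : F) ^ p = 1 := by
    have := congrArg (fun x => ((x : Fˣ) : F)) (congrArg Subtype.val h1)
    simpa using this
  have h3 : (((u : Fˣ) : F) - 1) ^ p = 0 := by
    rw [sub_pow_char, h2, one_pow, sub_self]
  have h4 : ((u : Fˣ) : F) = 1 := sub_eq_zero.1 (pow_eq_zero_iff hp.ne_zero |>.1 h3)
  have h5 : u = 1 := by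
    apply Subtype.ext
    apply Units.ext
    simpa using h4
  have h6 : g = 1 := by
    apply Matrix.SpecialLinearGroup.center_equiv_rootsOfUnity.injective
    rw [← hu, h5, map_one]
  rw [h6, orderOf_one] at hg
  exact hp.one_lt.ne hg

theorem nfn_thm (hL : S_NLB) (hN : S_NQD) (hU : S_UB3) : S_NFN := by
  intro p k F _ _ _ f q n hp hk hf hq hF hn C _ hC
  have hfin : Finite F :=
    Nat.finite_of_card_ne_zero (by rw [hF, hq]; exact pow_ne_zero _ hp.ne_zero)
  have hch : CharP F p := nfn_charF p F f q hp hf hq hF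
  set L : ℕ := (Finset.Icc 1 (n - 1)).lcm (fun m => q ^ m - 1) with hLdef
  have a1 : L ∣ NG k (Matrix.SpecialLinearGroup (Fin n) F) :=
    hL p k F f q n hp hk hf hq hF hn
  have hCp : ¬ p ∣ Nat.card C := fun h =>
    nfn_center p n F hp (h.trans (Subgroup.card_dvd_of_le hC))
  have a2 := hN p k (Matrix.SpecialLinearGroup (Fin n) F) C hp hk hCp
  have hinj : Function.Injective
      (Matrix.SpecialLinearGroup.toGL : Matrix.SpecialLinearGroup (Fin n) F →* _) :=
    Matrix.SpecialLinearGroup.toGL_injective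
  have a3 := (hU p f q n k F (Matrix.SpecialLinearGroup (Fin n) F) C
    Matrix.SpecialLinearGroup.toGL hp hf hq hF (by omega) hinj hC hCp).2
  rw [← hLdef] at a3
  have hq2 : 2 ≤ q := by
    rw [hq]
    calc 2 ≤ p := hp.two_le
      _ = p ^ 1 := (pow_one p).symm
      _ ≤ p ^ f := Nat.pow_le_pow_right hp.pos hf
  have hLpos : 0 < L := by
    rw [Nat.pos_iff_ne_zero, hLdef, Ne, Finset.lcm_eq_zero_iff]
    rintro ⟨m, hm, h0⟩
    have hm1 := (Finset.mem_Icc.1 (Finset.mem_coe.1 hm)).1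
    have : 2 ≤ q ^ m := hq2.trans (Nat.le_self_pow (by omega) q)
    have h0' : q ^ m - 1 = 0 := h0
    omega
  obtain ⟨d, hd⟩ := a1.trans a2
  have hdq : d ∣ q ^ (n - 2) := by
    rw [hd, mul_comm (q ^ (n - 2)) L] at a3
    exact Nat.dvd_of_mul_dvd_mul_left hLpos a3
  rw [hq, ← pow_mul] at hdq
  obtain ⟨s, hs, hds⟩ := (Nat.dvd_prime_pow hp).1 hdq
  exact ⟨s, hs, by rw [hd, hds, mul_comm]⟩

end Pool.CND
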